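import Pool.Agent.H98.SLN.Targets

set_option autoImplicit false

open MeasureTheory ProbabilityTheory Filter Topology
open Pool.Agent.H95 Pool.Agent.H95.Cop
open Pool.Agent.H55.CG (pz VV Mo)
open Pool.Agent.H98.CE
open Pool.Agent.H98.SLN

namespace Pool.Agent.H53.SLN

lemma pz_nonneg (K : PMF ℕ) (x : ℕ → ℝ) (d a : ℕ) : 0 ≤ pz K x d a := by
  induction d using Nat.strong_induction_on generalizing a with
  | _ d ih =>
    cases d with
    | zero => rw [pz]; norm_num
    | succ d =>
      rw [pz]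
      refine Finset.sum_nonneg fun j _ => ?_
      exact mul_nonneg (mul_nonneg (kk_nonneg K _) (wt_pos _ _ _).le) (ih _ (by omega) _)

lemma VV_nonneg (K : PMF ℕ) (ℓ : ℕ) : 0 ≤ VV K ℓ := by
  unfold VV
  exact Finset.sum_nonneg fun y _ => Finset.sum_nonneg fun z _ => uu_nonneg _ (kk_nonneg K) _

theorem pf_PCJ (hUQB : T_UQB) (hJEN : T_JEN) : T_PCJ := by
  intro K ℓ q x a b hℓ hab hM
  obtain ⟨h1, h2, -, -, -⟩ := hUQB K q
  set m : ℝ := YY K ℓ q x a b with hm
  set MMv : ℝ := MM K ℓ q a b with hMM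
  have key : ∀ y z : ℕ, y ≤ z → Real.exp m * (uq K q (z - y) + (uq K q (z - y) * (H x y z / 2) +
      Sq K q x (z - y) y) - uq K q (z - y) * m) ≤ pz K x (z - y) y := by
    intro y z hyz
    rcases (h1 (z - y)).1.eq_or_lt with h0 | h0
    · have hS := h2 (z - y) x y h0.symm
      rw [← h0, hS]
      have := pz_nonneg K x (z - y) y
      simpa using this
    · have hJ := hJEN K q (z - y) x y h0
      have hzz : y + (z - y) = z := by omega
      rw [hzz] at hJ
      refine le_trans ?_ hJ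
      set u := uq K q (z - y) with hu
      set S := Sq K q x (z - y) y with hS
      set t := H x y z / 2 + S / u with ht
      have he : Real.exp m * (1 + (t - m)) ≤ Real.exp t := by
        have h3 := Real.add_one_le_exp (t - m)
        have h4 : Real.exp t = Real.exp m * Real.exp (t - m) := by
          rw [← Real.exp_add]; congr 1; ring
        rw [h4]
        exact mul_le_mul_of_nonneg_left (by linarith) (Real.exp_pos m).le
      have hut : u * t = u * (H x y z / 2) + S := by
        rw [ht, mul_add, mul_div_cancel₀ _ h0.ne']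
      calc Real.exp m * (u + (u * (H x y z / 2) + S) - u * m)
          = u * (Real.exp m * (1 + (t - m))) := by rw [← hut]; ring
        _ ≤ u * Real.exp t := mul_le_mul_of_nonneg_left he h0.le
  have hlt : ∀ y ∈ Finset.Ico (a * ℓ) ((a + 1) * ℓ), ∀ z ∈ Finset.Ico (b * ℓ) ((b + 1) * ℓ),
      y ≤ z := by
    intro y hy z hz
    rw [Finset.mem_Ico] at hy hz
    have : (a + 1) * ℓ ≤ b * ℓ := Nat.mul_le_mul_right _ hab
    omega
  have hYY : (∑ y ∈ Finset.Ico (a * ℓ) ((a + 1) * ℓ), ∑ z ∈ Finset.Ico (b * ℓ) ((b + 1) * ℓ),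
      (uq K q (z - y) * (H x y z / 2) + Sq K q x (z - y) y)) = m * MMv := by
    rw [hm, YY, ← hMM, div_mul_cancel₀ _ hM.ne']
  have hsum : Real.exp m * MMv ≤ ∑ y ∈ Finset.Ico (a * ℓ) ((a + 1) * ℓ),
      ∑ z ∈ Finset.Ico (b * ℓ) ((b + 1) * ℓ), if y ≤ z then pz K x (z - y) y else 0 := by
    have e1 : Real.exp m * MMv = ∑ y ∈ Finset.Ico (a * ℓ) ((a + 1) * ℓ),
        ∑ z ∈ Finset.Ico (b * ℓ) ((b + 1) * ℓ), Real.exp m * (uq K q (z - y) +
          (uq K q (z - y) * (H x y z / 2) + Sq K q x (z - y) y) - uq K q (z - y) * m) := by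
      simp only [← Finset.mul_sum, Finset.sum_sub_distrib, Finset.sum_add_distrib,
        ← Finset.sum_mul]
      have e2 : (∑ y ∈ Finset.Ico (a * ℓ) ((a + 1) * ℓ), ∑ z ∈ Finset.Ico (b * ℓ) ((b + 1) * ℓ),
          uq K q (z - y)) = MMv := by rw [hMM]; rfl
      have e3 := hYY
      simp only [Finset.sum_add_distrib] at e3
      rw [e2, e3]
      ring
    rw [e1]
    refine Finset.sum_le_sum fun y hy => Finset.sum_le_sum fun z hz => ?_
    rw [if_pos (hlt y hy z hz)]
    exact key y z (hlt y hy z hz)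
  unfold pc
  rw [div_mul_eq_mul_div]
  refine div_le_div_of_nonneg_right ?_ (VV_nonneg K ℓ)
  rw [mul_comm]
  exact hsum

end Pool.Agent.H53.SLN
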